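import Mathlib

/-!
Every non-zero module with an action of the transpositions of an infinite set contains, for each
finite set `X`, a non-zero vector that is symmetric or antisymmetric under the transpositions
of `X`.
-/

set_option autoImplicit false

open Finset

namespace Pool.Agent.H168Z.WC

variable {α R V : Type*} [Ring R] [AddCommGroup V] [Module R V]

/-- relations satisfied by transpositions -/
structure Tr (T : α → α → R) : Prop where
  symm : ∀ x y, T x y = T y x
  sq : ∀ x y, x ≠ y → T x y * T x y = 1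
  braid : ∀ x y z, x ≠ y → y ≠ z → x ≠ z → T x z * T x y = T x y * T y z
  comm : ∀ x y z w, x ≠ y → z ≠ w → x ≠ z → x ≠ w → y ≠ z → y ≠ w → T x y * T z w = T z w * T x y

/-- `v` is multiplied by the sign `s` by each transposition of `X` -/
def Inv (T : α → α → R) (s : ℤˣ) (X : Finset α) (v : V) : Prop :=
  ∀ y ∈ X, ∀ z ∈ X, y ≠ z → T y z • v = s • v

variable {T : α → α → R}

lemma smul_units (r : R) (s : ℤˣ) (v : V) : r • s • v = s • r • v := by
  rcases Int.units_eq_one_or s with rfl | rfl <;> simp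

lemma Tr.ne_zero (h : Tr T) {x y : α} (hxy : x ≠ y) {v : V} (hv : v ≠ 0) : T x y • v ≠ 0 := by
  intro h0
  apply hv
  have : (T x y * T x y) • v = 0 := by rw [mul_smul, h0, smul_zero]
  rwa [h.sq x y hxy, one_smul] at this

lemma Tr.inv_insert [DecidableEq α] (h : Tr T) {s : ℤˣ} {X : Finset α} {x : α} (hx : x ∉ X)
    {w : V} (hw : ∀ z ∈ X, T x z • w = s • w) : Inv T s (insert x X) w := by
  have key : ∀ y ∈ X, ∀ z ∈ X, y ≠ z → T y z • w = s • w := by
    intro y hy z hz hyz
    have hxy : x ≠ y := fun e => hx (e ▸ hy)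
    have hxz : x ≠ z := fun e => hx (e ▸ hz)
    have e : T y z = T x y * (T x z * T x y) := by
      rw [h.braid x y z hxy hyz hxz, ← mul_assoc, h.sq x y hxy, one_mul]
    rw [e, mul_smul, mul_smul, hw y hy, smul_units, hw z hz, smul_smul, Int.units_mul_self,
      one_smul, hw y hy]
  intro y hy z hz hyz
  rcases mem_insert.1 hy with rfl | hy'
  · rcases mem_insert.1 hz with rfl | hz'
    · exact absurd rfl hyz
    · exact hw z hz'
  · rcases mem_insert.1 hz with rfl | hz'
    · rw [h.symm]; exact hw y hy'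
    · exact key y hy' z hz' hyz

lemma Tr.extend [DecidableEq α] (h : Tr T) {s : ℤˣ} {X : Finset α} {x : α} (hx : x ∉ X)
    {v : V} (hv : Inv T s X v) : Inv T s (insert x X) (v + s • ∑ y ∈ X, T x y • v) := by
  refine h.inv_insert hx fun z hz => ?_
  have hxz : x ≠ z := fun e => hx (e ▸ hz)
  have e1 : ∑ y ∈ X.erase z, T x z • T x y • v = s • ∑ y ∈ X.erase z, T x y • v := by
    rw [Finset.smul_sum]
    refine Finset.sum_congr rfl fun y hy => ?_
    obtain ⟨hyz, hy⟩ := mem_erase.1 hy
    have hxy : x ≠ y := fun e => hx (e ▸ hy)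
    rw [← mul_smul, h.braid x y z hxy hyz hxz, mul_smul, hv y hy z hz hyz, smul_units]
  rw [← Finset.add_sum_erase X _ hz, smul_add, smul_units, smul_add, ← mul_smul, h.sq x z hxz,
    one_smul, Finset.smul_sum, e1]
  rcases Int.units_eq_one_or s with rfl | rfl
  · simp only [one_smul]; abel
  · simp only [Units.neg_smul, one_smul, neg_neg, neg_add]; abel

lemma Tr.inv_comm (h : Tr T) {s : ℤˣ} {Y : Finset α} {v : V} (hv : Inv T s Y v) {x y : α}
    (hxy : x ≠ y) (hx : x ∉ Y) (hy : y ∉ Y) : Inv T s Y (T x y • v) := by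
  intro p hp q hq hpq
  rw [← mul_smul, h.comm p q x y hpq hxy (fun e => hx (e ▸ hp)) (fun e => hy (e ▸ hp))
    (fun e => hx (e ▸ hq)) (fun e => hy (e ▸ hq)), mul_smul, hv p hp q hq hpq, smul_units]

/-- the vectors of `W` with the symmetry `s` on `Y` -/
def invSub (T : α → α → R) (s : ℤˣ) (Y : Finset α) (W : AddSubgroup V) : AddSubgroup V where
  carrier := {w | w ∈ W ∧ Inv T s Y w}
  add_mem' := fun {a b} ha hb => ⟨W.add_mem ha.1 hb.1, fun y hy z hz hyz => by
    rw [smul_add, smul_add, ha.2 y hy z hz hyz, hb.2 y hy z hz hyz]⟩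
  zero_mem' := ⟨W.zero_mem, fun y _ z _ _ => by simp⟩
  neg_mem' := fun {a} ha => ⟨W.neg_mem ha.1, fun y hy z hz hyz => by
    rw [smul_neg, smul_neg, ha.2 y hy z hz hyz]⟩

lemma Tr.ramsey_aux [DecidableEq α] (h : Tr T) (htf : ∀ (n : ℕ) (v : V), n ≠ 0 → n • v = 0 → v = 0)
    (b : ℕ) (hb : ∀ Y : Finset α, Y.card = b → ∀ v : V, Inv T (-1) Y v → v = 0) (a : ℕ) :
    ∀ Ω : Set α, Ω.Infinite → ∀ W : AddSubgroup V, (∃ w ∈ W, w ≠ 0) →
      (∀ x ∈ Ω, ∀ y ∈ Ω, x ≠ y → ∀ w ∈ W, T x y • w ∈ W) →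
      ∃ A : Finset α, (A : Set α) ⊆ Ω ∧ A.card = a + 1 ∧ ∃ v ∈ W, v ≠ 0 ∧ Inv T 1 A v := by
  induction a with
  | zero =>
    rintro Ω hΩ W ⟨w, hw, hw0⟩ -
    obtain ⟨x, hx⟩ := hΩ.nonempty
    refine ⟨{x}, by simpa using hx, by simp, w, hw, hw0, fun y hy z hz hyz => ?_⟩
    exact absurd ((mem_singleton.1 hy).trans (mem_singleton.1 hz).symm) hyz
  | succ a ih =>
    rintro Ω hΩ W ⟨w, hw, hw0⟩ hW
    by_contra hcon
    have hno : ∀ A : Finset α, (A : Set α) ⊆ Ω → A.card = a + 1 + 1 → ∀ v ∈ W, Inv T 1 A v →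
        v = 0 := by
      intro A hA hc v hv hi
      by_contra h0
      exact hcon ⟨A, hA, hc, v, hv, h0, hi⟩
    have key : ∀ j : ℕ, ∃ Y : Finset α, (Y : Set α) ⊆ Ω ∧ Y.card = j ∧
        ∃ v ∈ W, v ≠ 0 ∧ Inv T (-1) Y v := by
      intro j
      induction j with
      | zero => exact ⟨∅, by simp, rfl, w, hw, hw0, fun y hy => absurd hy (notMem_empty y)⟩
      | succ j ihj =>
        obtain ⟨Y, hY, hYc, v, hv, hv0, hvi⟩ := ihj
        obtain ⟨A, hA, hAc, v', hv', hv0', hvi'⟩ := ih (Ω \ Y) (hΩ.sdiff Y.finite_toSet)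
          (invSub T (-1) Y W) ⟨v, ⟨hv, hvi⟩, hv0⟩ (fun x hx y hy hxy w hw =>
            ⟨hW x hx.1 y hy.1 hxy w hw.1, h.inv_comm hw.2 hxy hx.2 hy.2⟩)
        obtain ⟨x, hx⟩ : A.Nonempty := card_pos.1 (by omega)
        have hxY : x ∉ Y := (hA hx).2
        have hdis : ∀ y ∈ A, ∀ i ∈ Y, y ≠ i := fun y hy i hi e => (hA hy).2 (e ▸ hi)
        refine ⟨insert x Y, ?_, by rw [card_insert_of_notMem hxY, hYc],
          v' + (-1 : ℤˣ) • ∑ y ∈ Y, T x y • v', ?_, ?_, h.extend hxY hv'.2⟩
        · rw [coe_insert]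
          exact Set.insert_subset (hA hx).1 hY
        · simp only [Units.neg_smul, one_smul]
          exact W.add_mem hv'.1 (W.neg_mem (W.sum_mem fun y hy =>
            hW x (hA hx).1 y (hY hy) (hdis x hx y hy) _ hv'.1))
        · intro h0
          simp only [Units.neg_smul, one_smul] at h0
          have h1 : v' = ∑ i ∈ Y, T x i • v' := by
            rw [← sub_eq_add_neg] at h0
            exact sub_eq_zero.1 h0
          have h2 : ∀ y ∈ A, v' = ∑ i ∈ Y, T y i • v' := by
            intro y hy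
            by_cases hxy : x = y
            · exact hxy ▸ h1
            have a1 : T x y • v' = v' := by simpa using hvi' x hx y hy hxy
            calc v' = T x y • v' := a1.symm
              _ = T x y • ∑ i ∈ Y, T x i • v' := by rw [← h1]
              _ = ∑ i ∈ Y, T y i • v' := by
                rw [Finset.smul_sum]
                refine Finset.sum_congr rfl fun i hi => ?_
                have a2 := h.braid y x i (Ne.symm hxy) (hdis x hx i hi) (hdis y hy i hi)
                rw [h.symm y x] at a2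
                rw [← mul_smul, ← a2, mul_smul, a1]
          have h3 : ∀ i ∈ Y, ∑ y ∈ A, T y i • v' = -v' := by
            intro i hi
            have hiA : i ∉ A := fun hiA => hdis i hiA i hi rfl
            have a1 := hno (insert i A) (by
                rw [coe_insert]
                exact Set.insert_subset (hY hi) (fun y hy => (hA hy).1))
              (by rw [card_insert_of_notMem hiA, hAc]) _ (by
                simp only [one_smul]
                exact W.add_mem hv'.1 (W.sum_mem fun y hy =>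
                  hW i (hY hi) y (hA hy).1 (hdis y hy i hi).symm _ hv'.1))
              (h.extend hiA hvi')
            simp only [one_smul] at a1
            simp_rw [h.symm i] at a1
            exact eq_neg_of_add_eq_zero_right a1
          have h4 : ∑ y ∈ A, v' = ∑ i ∈ Y, -v' := by
            calc ∑ y ∈ A, v' = ∑ y ∈ A, ∑ i ∈ Y, T y i • v' := Finset.sum_congr rfl h2
              _ = ∑ i ∈ Y, ∑ y ∈ A, T y i • v' := Finset.sum_comm
              _ = _ := Finset.sum_congr rfl h3
          rw [sum_const, sum_const, hAc, smul_neg] at h4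
          apply hv0'
          refine htf (a + 1 + Y.card) v' (by omega) ?_
          rw [add_nsmul, h4, neg_add_cancel]
    obtain ⟨Y, -, hYc, v, -, hv0, hvi⟩ := key b
    exact hv0 (hb Y hYc v hvi)

lemma Tr.move [DecidableEq α] (h : Tr T) (s : ℤˣ) (X : Finset α) (k : ℕ) :
    ∀ A : Finset α, (X \ A).card = k → X.card ≤ A.card → ∀ v : V, v ≠ 0 → Inv T s A v →
      ∃ w : V, w ≠ 0 ∧ Inv T s X w := by
  induction k with
  | zero =>
    intro A hk _ v hv0 hv
    have hXA : X ⊆ A := sdiff_eq_empty_iff_subset.1 (card_eq_zero.1 hk)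
    exact ⟨v, hv0, fun y hy z hz hyz => hv y (hXA hy) z (hXA hz) hyz⟩
  | succ k ih =>
    intro A hk hc v hv0 hv
    obtain ⟨y, hy⟩ : (X \ A).Nonempty := card_pos.1 (by omega)
    obtain ⟨hyX, hyA⟩ := mem_sdiff.1 hy
    obtain ⟨x, hxA, hxX⟩ : ∃ x ∈ A, x ∉ X := by
      by_contra hcon
      push Not at hcon
      have : A = X := eq_of_subset_of_card_le hcon hc
      exact hyA (this ▸ hyX)
    have hxy : x ≠ y := fun e => hxX (e ▸ hyX)
    have hy' : y ∉ A.erase x := fun hh => hyA (mem_of_mem_erase hh)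
    refine ih (insert y (A.erase x)) ?_ ?_ (T x y • v) (h.ne_zero hxy hv0) ?_
    · have : X \ insert y (A.erase x) = (X \ A).erase y := by
        ext p
        simp only [mem_sdiff, mem_insert, mem_erase]
        constructor
        · rintro ⟨hp, hq⟩
          push Not at hq
          exact ⟨hq.1, hp, hq.2 (fun e => hxX (e ▸ hp))⟩
        · rintro ⟨h1, h2, h3⟩
          exact ⟨h2, fun hq => hq.elim h1 fun hq => h3 hq.2⟩
      rw [this, card_erase_of_mem hy, hk]
      rfl
    · rw [card_insert_of_notMem hy', card_erase_of_mem hxA]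
      have := card_pos.2 ⟨x, hxA⟩
      omega
    · refine h.inv_insert hy' fun z hz => ?_
      obtain ⟨hzx, hzA⟩ := mem_erase.1 hz
      have hyz : y ≠ z := fun e => hyA (e ▸ hzA)
      have a2 := h.braid y x z hxy.symm hzx.symm hyz
      rw [h.symm y x] at a2
      rw [← mul_smul, a2, mul_smul, hv x hxA z hzA hzx.symm, smul_units]

theorem Tr.exists_inv [DecidableEq α] [Infinite α] (h : Tr T)
    (htf : ∀ (n : ℕ) (v : V), n ≠ 0 → n • v = 0 → v = 0) {v₀ : V} (hv₀ : v₀ ≠ 0) (X : Finset α) :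
    ∃ (s : ℤˣ) (w : V), w ≠ 0 ∧ Inv T s X w := by
  by_cases hb : ∀ Y : Finset α, Y.card = X.card → ∀ v : V, Inv T (-1) Y v → v = 0
  · obtain ⟨A, -, hAc, v, -, hv0, hv⟩ := h.ramsey_aux htf X.card hb X.card Set.univ
      Set.infinite_univ ⊤ ⟨v₀, trivial, hv₀⟩ (fun _ _ _ _ _ _ _ => trivial)
    exact ⟨1, h.move 1 X _ A rfl (by omega) v hv0 hv⟩
  · push Not at hb
    obtain ⟨Y, hY, v, hv, hv0⟩ := hb
    exact ⟨-1, h.move (-1) X _ Y rfl hY.ge v hv0 hv⟩

end Pool.Agent.H168Z.WC
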