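import Mathlib
import Pool.Agent.H168Z.WC.Ram

/-!
The finitary alternating group: every proper ideal of a Banach algebra densely spanned by it lies
in the augmentation ideal; the permutation representation has trivial commutant.
-/

set_option autoImplicit false

open Equiv
open scoped InnerProductSpace

namespace Pool.Agent.H168Z.WC

/-- the finitary alternating group of `ℕ` -/
def Alt : Subgroup (Perm ℕ) :=
  Subgroup.closure {g | ∃ a b c d : ℕ, a ≠ b ∧ c ≠ d ∧ g = swap a b * swap c d}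

/-- a generator -/
def gen (a b c d : ℕ) (h1 : a ≠ b) (h2 : c ≠ d) : Alt :=
  ⟨swap a b * swap c d, Subgroup.subset_closure ⟨a, b, c, d, h1, h2, rfl⟩⟩

lemma alt_countable : Countable Alt := by
  let f : ℕ × ℕ × ℕ × ℕ → Perm ℕ := fun p => swap p.1 p.2.1 * swap p.2.2.1 p.2.2.2
  have h : (Alt : Set (Perm ℕ)) ⊆ Set.range (FreeGroup.lift f) := by
    have h1 : Alt ≤ (FreeGroup.lift f).range := by
      rw [FreeGroup.range_lift_eq_closure]
      refine Subgroup.closure_mono ?_
      rintro g ⟨a, b, c, d, -, -, rfl⟩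
      exact ⟨(a, b, c, d), rfl⟩
    exact h1
  exact ((Set.countable_range _).mono h).to_subtype

section Mod

variable {R V : Type*} [Ring R] [AddCommGroup V] [Module R V]

/-- `v` is fixed by the generators with indices below `n` -/
def Fix (U : Alt →* R) (n : ℕ) (v : V) : Prop :=
  ∀ (a b c d : ℕ) (h1 : a ≠ b) (h2 : c ≠ d), a < n → b < n → c < n → d < n →
    U (gen a b c d h1 h2) • v = v

lemma Fix.mono {U : Alt →* R} {n m : ℕ} {v : V} (h : Fix U m v) (hnm : n ≤ m) : Fix U n v :=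
  fun a b c d h1 h2 ha hb hc hd =>
    h a b c d h1 h2 (ha.trans_le hnm) (hb.trans_le hnm) (hc.trans_le hnm) (hd.trans_le hnm)

/-- an embedding of `ℕ` that fixes the numbers below `n` and misses `n`, `n + 1` -/
def emb (n x : ℕ) : ℕ := if x < n then x else x + 2

lemma emb_ne {n x y : ℕ} (h : x ≠ y) : emb n x ≠ emb n y := by
  unfold emb; split_ifs <;> omega

lemma emb_ne0 (n x : ℕ) : emb n x ≠ n := by
  unfold emb; split_ifs <;> omega

lemma emb_ne1 (n x : ℕ) : emb n x ≠ n + 1 := by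
  unfold emb; split_ifs <;> omega

lemma swap_comm' {a b c d : ℕ} (h1 : a ≠ c) (h2 : a ≠ d) (h3 : b ≠ c) (h4 : b ≠ d) :
    swap a b * swap c d = swap c d * swap a b := by
  ext p
  simp only [Perm.mul_apply, swap_apply_def]
  split_ifs <;> omega

lemma swap_braid {x y z : ℕ} (_h1 : x ≠ y) (h2 : y ≠ z) (h3 : x ≠ z) :
    swap x z * swap x y = swap x y * swap y z := by
  ext p
  simp only [Perm.mul_apply, swap_apply_def]
  split_ifs <;> omega

/-- transpositions corrected by a fixed transposition -/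
def TT (U : Alt →* R) (n x y : ℕ) : R :=
  if h : x = y then 1 else U (gen (emb n x) (emb n y) n (n + 1) (emb_ne h) (by omega))

lemma TT_mul (U : Alt →* R) (n : ℕ) {x y z w : ℕ} (h1 : x ≠ y) (h2 : z ≠ w) :
    TT U n x y * TT U n z w =
      U (gen (emb n x) (emb n y) (emb n z) (emb n w) (emb_ne h1) (emb_ne h2)) := by
  unfold TT
  rw [dif_neg h1, dif_neg h2, ← map_mul]
  congr 1
  apply Subtype.ext
  show swap _ _ * swap _ _ * (swap _ _ * swap _ _) = swap _ _ * swap _ _
  rw [swap_comm' (emb_ne0 n z) (emb_ne1 n z) (emb_ne0 n w) (emb_ne1 n w), mul_assoc,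
    ← mul_assoc (swap n (n + 1)), swap_mul_self, one_mul]

lemma TT_tr (U : Alt →* R) (n : ℕ) : Tr (TT U n) where
  symm x y := by
    unfold TT
    by_cases h : x = y
    · rw [dif_pos h, dif_pos h.symm]
    · rw [dif_neg h, dif_neg (Ne.symm h)]
      congr 1
      apply Subtype.ext
      show swap _ _ * swap _ _ = swap _ _ * swap _ _
      rw [swap_comm]
  sq x y h := by
    rw [TT_mul U n h h, ← map_one U]
    congr 1
    exact Subtype.ext (swap_mul_self _ _)
  braid x y z h1 h2 h3 := by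
    rw [TT_mul U n h3 h1, TT_mul U n h1 h2]
    congr 1
    exact Subtype.ext (swap_braid (emb_ne h1) (emb_ne h2) (emb_ne h3))
  comm x y z w h1 h2 h3 h4 h5 h6 := by
    rw [TT_mul U n h1 h2, TT_mul U n h2 h1]
    congr 1
    exact Subtype.ext (swap_comm' (emb_ne h3) (emb_ne h4) (emb_ne h5) (emb_ne h6))

lemma exists_fix (U : Alt →* R) (htf : ∀ (n : ℕ) (v : V), n ≠ 0 → n • v = 0 → v = 0) {v₀ : V}
    (hv₀ : v₀ ≠ 0) (n : ℕ) : ∃ v : V, v ≠ 0 ∧ Fix U n v := by
  obtain ⟨s, w, hw0, hw⟩ := (TT_tr U n).exists_inv htf hv₀ (Finset.range n)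
  refine ⟨w, hw0, fun a b c d h1 h2 ha hb hc hd => ?_⟩
  have e : gen a b c d h1 h2 =
      gen (emb n a) (emb n b) (emb n c) (emb n d) (emb_ne h1) (emb_ne h2) := by
    apply Subtype.ext
    show swap _ _ * swap _ _ = swap _ _ * swap _ _
    simp only [emb, ha, hb, hc, hd, if_true]
  rw [e, ← TT_mul U n h1 h2, mul_smul, hw c (Finset.mem_range.2 hc) d (Finset.mem_range.2 hd) h2,
    smul_units, hw a (Finset.mem_range.2 ha) b (Finset.mem_range.2 hb) h1, smul_smul,
    Int.units_mul_self, one_smul]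

lemma fix_elem (U : Alt →* R) (g : Alt) : ∃ n : ℕ, ∀ v : V, Fix U n v → U g • v = v := by
  obtain ⟨g, hg⟩ := g
  induction hg using Subgroup.closure_induction with
  | mem g hg =>
    obtain ⟨a, b, c, d, h1, h2, rfl⟩ := hg
    exact ⟨a + b + c + d + 1, fun v hv => hv a b c d h1 h2 (by omega) (by omega) (by omega)
      (by omega)⟩
  | one => exact ⟨0, fun v _ => by
      have : U ⟨1, Subgroup.one_mem _⟩ = 1 := map_one U
      rw [this, one_smul]⟩
  | mul g h hg hh ihg ihh =>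
    obtain ⟨n, hn⟩ := ihg
    obtain ⟨m, hm⟩ := ihh
    refine ⟨n + m, fun v hv => ?_⟩
    have : U ⟨g * h, Subgroup.mul_mem _ hg hh⟩ = U ⟨g, hg⟩ * U ⟨h, hh⟩ := map_mul U ⟨g, hg⟩ ⟨h, hh⟩
    rw [this, mul_smul, hm v (hv.mono (by omega)), hn v (hv.mono (by omega))]
  | inv g hg ihg =>
    obtain ⟨n, hn⟩ := ihg
    refine ⟨n, fun v hv => ?_⟩
    have : U ⟨g⁻¹, Subgroup.inv_mem _ hg⟩ * U ⟨g, hg⟩ = 1 := by
      rw [← map_mul, ← map_one U]
      congr 1
      exact Subtype.ext (inv_mul_cancel g)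
    calc U ⟨g⁻¹, Subgroup.inv_mem _ hg⟩ • v = U ⟨g⁻¹, Subgroup.inv_mem _ hg⟩ • U ⟨g, hg⟩ • v := by
          rw [hn v hv]
      _ = v := by rw [← mul_smul, this, one_smul]

end Mod

theorem ideal_le_aug {A : Type*} [CStarAlgebra A] (U : Alt →* A)
    (hd : Dense (Submodule.span ℂ (Set.range U) : Set A)) (ε : A →ₗ[ℂ] ℂ)
    (hε1 : ∀ g, ε (U g) = 1) (hε : ∀ a, ‖ε a‖ ≤ ‖a‖) (I : TwoSidedIdeal A) (hI : I ≠ ⊤)
    {x : A} (hx : x ∈ I) : ε x = 0 := by
  have h1 : (1 : A) ∉ I := fun h => hI (TwoSidedIdeal.one_mem_iff I |>.1 h)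
  have hnt : Nontrivial A := ⟨1, 0, fun h => h1 (h ▸ I.zero_mem)⟩
  let J : Submodule A A := I.asIdeal
  have hJ : ∀ a, (Submodule.Quotient.mk a : A ⧸ J) = 0 ↔ a ∈ I := fun a => by
    rw [Submodule.Quotient.mk_eq_zero]
    exact TwoSidedIdeal.mem_asIdeal
  have hunit : ∀ (a : A) (v : A ⧸ J), IsUnit a → a • v = 0 → v = 0 := fun a v ha h =>
    (ha.smul_eq_zero).1 h
  have htf : ∀ (n : ℕ) (v : A ⧸ J), n ≠ 0 → n • v = 0 → v = 0 := by
    intro n v hn h
    refine hunit (n : A) v ?_ (by rwa [Nat.cast_smul_eq_nsmul])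
    have : IsUnit (n : ℂ) := IsUnit.mk0 _ (by exact_mod_cast hn)
    simpa using this.map (algebraMap ℂ A)
  have hv₀ : (Submodule.Quotient.mk 1 : A ⧸ J) ≠ 0 := fun h => h1 ((hJ 1).1 h)
  have hxv : ∀ v : A ⧸ J, x • v = 0 := by
    intro v
    obtain ⟨a, rfl⟩ := Submodule.Quotient.mk_surjective J v
    rw [← Submodule.Quotient.mk_smul, hJ, smul_eq_mul]
    exact I.mul_mem_right _ _ hx
  have hspan : ∀ y ∈ Submodule.span ℂ (Set.range U), ∃ n : ℕ, ∀ v : A ⧸ J, Fix U n v →
      y • v = algebraMap ℂ A (ε y) • v := by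
    intro y hy
    induction hy using Submodule.span_induction with
    | mem y hy =>
      obtain ⟨g, rfl⟩ := hy
      obtain ⟨n, hn⟩ := fix_elem (V := A ⧸ J) U g
      exact ⟨n, fun v hv => by rw [hn v hv, hε1, map_one, one_smul]⟩
    | zero => exact ⟨0, fun v _ => by simp⟩
    | add y z _ _ ihy ihz =>
      obtain ⟨n, hn⟩ := ihy
      obtain ⟨m, hm⟩ := ihz
      refine ⟨n + m, fun v hv => ?_⟩
      rw [add_smul, map_add, map_add, add_smul, hn v (hv.mono (by omega)),
        hm v (hv.mono (by omega))]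
    | smul c y _ ihy =>
      obtain ⟨n, hn⟩ := ihy
      refine ⟨n, fun v hv => ?_⟩
      rw [Algebra.smul_def, mul_smul, hn v hv, ← mul_smul, ← map_mul, ← Algebra.smul_def,
        map_smul, smul_eq_mul]
  refine norm_le_zero_iff.1 (le_of_forall_pos_le_add fun δ hδ => ?_)
  obtain ⟨y, hy, hxy⟩ := Metric.mem_closure_iff.1 (hd x) (δ / 2) (by positivity)
  rw [dist_eq_norm] at hxy
  obtain ⟨n, hn⟩ := hspan y hy
  obtain ⟨v, hv0, hv⟩ := exists_fix U htf hv₀ n
  have h2 : ‖ε y‖ ≤ ‖y - x‖ := by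
    by_contra hlt
    push Not at hlt
    have h3 := spectrum.mem_resolventSet_of_norm_lt hlt
    refine hv0 (hunit _ v h3 ?_)
    rw [sub_smul, sub_smul, hxv, hn v hv, sub_zero, sub_self]
  have h4 := hε (x - y)
  rw [map_sub] at h4
  rw [norm_sub_rev] at h2
  calc ‖ε x‖ = ‖(ε x - ε y) + ε y‖ := by rw [sub_add_cancel]
    _ ≤ ‖ε x - ε y‖ + ‖ε y‖ := norm_add_le _ _
    _ ≤ 0 + δ := by linarith

/-- the Hilbert space -/
abbrev Ell : Type := lp (fun _ : ℕ => ℂ) 2

/-- The operator `f ↦ f ∘ e`. -/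
noncomputable def permOp (e : Perm ℕ) : Ell →L[ℂ] Ell :=
  LinearIsometry.toContinuousLinearMap
    { toFun := fun f => ⟨fun h => f (e h), by
        have h1 := (lp.memℓp f).summable (by norm_num)
        refine memℓp_gen ?_
        exact (e.summable_iff (f := fun h => ‖f h‖ ^ (2 : ENNReal).toReal)).2 h1⟩
      map_add' := fun f g => by ext h; rfl
      map_smul' := fun c f => by ext h; rfl
      norm_map' := fun f => by
        have h1 : (0 : ℝ) < (2 : ENNReal).toReal := by norm_num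
        rw [lp.norm_eq_tsum_rpow h1, lp.norm_eq_tsum_rpow h1]
        congr 1
        exact e.tsum_eq (fun h => ‖f h‖ ^ (2 : ENNReal).toReal) }

theorem permOp_apply (e : Perm ℕ) (f : Ell) (h : ℕ) : (permOp e f) h = f (e h) := rfl

theorem permOp_mul (e e' : Perm ℕ) : permOp e * permOp e' = permOp (e' * e) := by
  ext f h
  rfl

theorem permOp_one : permOp 1 = 1 := by
  ext f h
  rfl

theorem star_permOp (e : Perm ℕ) : star (permOp e) = permOp e⁻¹ := by
  rw [ContinuousLinearMap.star_eq_adjoint]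
  symm
  rw [ContinuousLinearMap.eq_adjoint_iff]
  intro x y
  have h1 := lp.hasSum_inner (𝕜 := ℂ) (permOp e⁻¹ x) y
  have h2 := lp.hasSum_inner (𝕜 := ℂ) x (permOp e y)
  have h3 := (e.symm.hasSum_iff (f := fun i => ⟪x i, (permOp e y) i⟫_ℂ)
    (a := ⟪x, permOp e y⟫_ℂ)).2 h2
  refine h1.unique ?_
  refine h3.congr_fun ?_
  intro i
  show ⟪(permOp e.symm x) i, y i⟫_ℂ = ⟪x (e.symm i), (permOp e y) (e.symm i)⟫_ℂ
  rw [permOp_apply, permOp_apply, e.apply_symm_apply]

/-- the permutation representation -/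
noncomputable def permRep : Alt →* unitary (Ell →L[ℂ] Ell) where
  toFun g := ⟨permOp (g : Perm ℕ)⁻¹, by
    rw [Unitary.mem_iff, star_permOp, permOp_mul, permOp_mul, inv_inv, mul_inv_cancel,
      inv_mul_cancel, permOp_one]
    exact ⟨rfl, rfl⟩⟩
  map_one' := Subtype.ext (by simp [permOp_one])
  map_mul' g h := Subtype.ext (by simp [permOp_mul])

/-- basis vectors -/
noncomputable def dl (j : ℕ) : Ell := lp.single 2 j (1 : ℂ)

lemma dl_apply (j i : ℕ) : dl j i = if i = j then 1 else 0 := by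
  unfold dl
  rw [lp.single_apply, Pi.single_apply]

lemma permOp_dl (e : Perm ℕ) (j : ℕ) : permOp e (dl (e j)) = dl j := by
  ext i
  rw [permOp_apply, dl_apply, dl_apply]
  simp

theorem commutant (S : Ell →L[ℂ] Ell)
    (hS : ∀ g : Alt, S * permOp (g : Perm ℕ)⁻¹ = permOp (g : Perm ℕ)⁻¹ * S) :
    ∃ c : ℂ, S = c • 1 := by
  have h1 : ∀ (g : Alt) (i j : ℕ), S (dl j) i = S (dl ((g : Perm ℕ) j)) ((g : Perm ℕ) i) := by
    intro g i j
    have := congrArg (fun T : Ell →L[ℂ] Ell => T (dl ((g : Perm ℕ) j)) i) (hS g⁻¹)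
    simp only [Subgroup.coe_inv, inv_inv, mul_apply_eq_comp, permOp_dl,
      permOp_apply] at this
    exact this
  have h2 : ∀ i j, i ≠ j → S (dl j) i = 0 := by
    intro i j hij
    have a1 : ∀ k, i + j < k → S (dl j) k = S (dl j) i := by
      intro k hk
      have := h1 (gen i k (k + 1) (k + 2) (by omega) (by omega)) i j
      have e1 : (swap i k * swap (k + 1) (k + 2)) j = j := by
        simp only [Perm.mul_apply, swap_apply_def]
        split_ifs <;> omega
      have e2 : (swap i k * swap (k + 1) (k + 2)) i = k := by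
        simp only [Perm.mul_apply, swap_apply_def]
        split_ifs <;> omega
      simp only [gen, e1, e2] at this
      exact this.symm
    have a2 := ((lp.memℓp (S (dl j))).summable (by norm_num)).tendsto_atTop_zero
    have a3 : (fun k => ‖S (dl j) k‖ ^ (2 : ENNReal).toReal) =ᶠ[Filter.atTop]
        fun _ => ‖S (dl j) i‖ ^ (2 : ENNReal).toReal := by
      filter_upwards [Filter.eventually_gt_atTop (i + j)] with k hk
      rw [a1 k hk]
    have a4 := tendsto_nhds_unique (a2.congr' a3) tendsto_const_nhds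
    have a5 := (Real.rpow_eq_zero (norm_nonneg _) (by norm_num)).1 a4.symm
    exact norm_eq_zero.1 a5
  have h3 : ∀ j, S (dl j) j = S (dl 0) 0 := by
    intro j
    by_cases hj : j = 0
    · rw [hj]
    have := h1 (gen j 0 (j + 1) (j + 2) hj (by omega)) j j
    have e1 : (swap j 0 * swap (j + 1) (j + 2)) j = 0 := by
      simp only [Perm.mul_apply, swap_apply_def]
      split_ifs <;> omega
    simp only [gen, e1] at this
    exact this
  refine ⟨S (dl 0) 0, lp.ext_continuousLinearMap (by norm_num) fun j => ?_⟩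
  ext i
  show S (dl j) i = (S (dl 0) 0 • dl j) i
  rw [lp.coeFn_smul, Pi.smul_apply, dl_apply]
  split_ifs with h
  · rw [h, h3, smul_eq_mul, mul_one]
  · rw [h2 i j h, smul_zero]

end Pool.Agent.H168Z.WC
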