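import Mathlib

/-!
Existence of the full group C*-algebra of a discrete group.
-/

set_option autoImplicit false

open scoped ENNReal

namespace Pool.Agent.H168Z.WC

/-- unitary representations in non-zero C*-algebras -/
structure URep (G : Type) [Group G] : Type 1 where
  B : Type
  [i1 : CStarAlgebra B]
  [i4 : Nontrivial B]
  π : G →* unitary B

attribute [instance] URep.i1 URep.i4

variable {G : Type} [Group G]

/-- the product of the operator algebras -/
abbrev Big (G : Type) [Group G] : Type 1 := lp (fun ρ : URep G => ρ.B) ∞

noncomputable instance : CStarAlgebra (Big G) where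

/-- the universal representation -/
noncomputable def uni (g : G) : Big G :=
  ⟨fun ρ => (ρ.π g : ρ.B), memℓp_infty ⟨1, by
    rintro _ ⟨ρ, rfl⟩
    exact (CStarRing.norm_coe_unitary (ρ.π g)).le⟩⟩

lemma uni_apply (g : G) (ρ : URep G) : uni g ρ = (ρ.π g : ρ.B) := rfl

lemma uni_one : uni (1 : G) = 1 := by
  ext1
  funext ρ
  rw [uni_apply, map_one]
  rfl

lemma uni_mul (g h : G) : uni (g * h) = uni g * uni h := by
  ext1
  funext ρ
  rw [uni_apply, map_mul]
  rfl

lemma uni_star (g : G) : star (uni g) = uni g⁻¹ := by
  ext1
  funext ρ
  rw [uni_apply, map_inv]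
  rfl

/-- the span of the universal representation -/
noncomputable def spanAlg (G : Type) [Group G] : StarSubalgebra ℂ (Big G) where
  carrier := Submodule.span ℂ (Set.range (uni (G := G)))
  mul_mem' := fun {a b} ha hb => by
    have h := Submodule.mul_mem_mul ha hb
    rw [Submodule.span_mul_span] at h
    refine Submodule.span_mono ?_ h
    rintro _ ⟨_, ⟨g, rfl⟩, _, ⟨h, rfl⟩, rfl⟩
    exact ⟨g * h, uni_mul g h⟩
  add_mem' := Submodule.add_mem _
  algebraMap_mem' := fun c => by
    rw [Algebra.algebraMap_eq_smul_one]
    exact Submodule.smul_mem _ c (Submodule.subset_span ⟨1, uni_one⟩)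
  star_mem' := fun {a} ha => by
    induction ha using Submodule.span_induction with
    | mem x hx =>
      obtain ⟨g, rfl⟩ := hx
      exact Submodule.subset_span ⟨g⁻¹, (uni_star g).symm⟩
    | zero => rw [star_zero]; exact Submodule.zero_mem _
    | add x y _ _ hx hy => rw [star_add]; exact Submodule.add_mem _ hx hy
    | smul c x _ hx => rw [star_smul]; exact Submodule.smul_mem _ _ hx

/-- evaluation at a representation -/
noncomputable def ev (ρ : URep G) : Big G →⋆ₐ[ℂ] ρ.B where
  toFun f := f ρ
  map_one' := rfl
  map_mul' _ _ := rfl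
  map_zero' := rfl
  map_add' _ _ := rfl
  commutes' _ := rfl
  map_star' _ := rfl

theorem exists_full (G : Type) [Group G] :
    ∃ (A : Type 1) (_ : CStarAlgebra A) (u : G →* unitary A),
      Dense (Submodule.span ℂ (Set.range fun g => (u g : A)) : Set A) ∧
      ∀ (H : Type) [CStarAlgebra H] (π : G →* unitary H),
        ∃ φ : A →⋆ₐ[ℂ] H, ∀ g, φ (u g) = π g := by
  let S := (spanAlg G).topologicalClosure
  have hS : IsClosed (S : Set (Big G)) := (spanAlg G).isClosed_topologicalClosure
  have hmem : ∀ g : G, uni g ∈ S := fun g =>
    (spanAlg G).le_topologicalClosure (Submodule.subset_span ⟨g, rfl⟩)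
  let u : G →* unitary S :=
    { toFun := fun g => ⟨⟨uni g, hmem g⟩, by
        rw [Unitary.mem_iff]
        constructor
        · apply Subtype.ext
          show star (uni g) * uni g = 1
          rw [uni_star, ← uni_mul, inv_mul_cancel, uni_one]
        · apply Subtype.ext
          show uni g * star (uni g) = 1
          rw [uni_star, ← uni_mul, mul_inv_cancel, uni_one]⟩
      map_one' := Subtype.ext (Subtype.ext uni_one)
      map_mul' := fun g h => Subtype.ext (Subtype.ext (uni_mul g h)) }
  refine ⟨S, StarSubalgebra.cstarAlgebra S, u, ?_, fun H _ π => ?_⟩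
  · rw [Subtype.dense_iff]
    refine closure_mono ?_
    intro x hx
    have h : Submodule.span ℂ (Set.range (uni (G := G))) ≤
        (Submodule.span ℂ (Set.range fun g => (u g : S))).map S.subtype.toLinearMap := by
      rw [Submodule.span_le]
      rintro _ ⟨g, rfl⟩
      exact ⟨u g, Submodule.subset_span ⟨g, rfl⟩, rfl⟩
    exact h hx
  · rcases subsingleton_or_nontrivial H with hH | hH
    · exact ⟨{ toFun := fun _ => 0
               map_one' := Subsingleton.elim _ _
               map_mul' := fun _ _ => Subsingleton.elim _ _
               map_zero' := rfl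
               map_add' := fun _ _ => Subsingleton.elim _ _
               commutes' := fun _ => Subsingleton.elim _ _
               map_star' := fun _ => Subsingleton.elim _ _ }, fun _ => Subsingleton.elim _ _⟩
    · exact ⟨(ev ⟨H, π⟩).comp S.subtype, fun g => rfl⟩

end Pool.Agent.H168Z.WC
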